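import Pool.Agent.helper7.WB.R2_1a
import Pool.Agent.helper80.WB.R2_5
import Pool.Agent.helper69.WB.Z1
import Pool.Agent.H48.WB.Z3
import Pool.Agent.helper21.WB.HB
import Pool.Agent.helper19.WB.B1a

/-! [R2-6] `match_at`: matching of horoballs at a point (part of helper21's project on MP_7b8095_gt,
sub-lead helper7).  `match_at_of` is the statement of the interface, from `abelian_three` (`Ab3`). -/

set_option autoImplicit false
open Matrix MeasureTheory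

namespace Pool.Agent.helper7.WB
open Pool.Agent.helper21.WB

namespace R26

theorem Tr_swap {P : Type} (q q' : P → GLI) (σ : P) : Tr q' q σ = (Tr q q' σ)⁻¹ := by
  simp [Tr]

theorem inG_Tr {P : Type} {q q' : P → GLI} {D ρ : ℝ} (h : MF q q' D ρ) (σ : P) :
    InG (Tr q q' σ) := (h.inG' σ).mul (h.inG σ).inv

theorem fn_inv_sub {g h : GLI} (hg : InG g) (hh : InG h) :
    fn ((g⁻¹ : GLI).val - (h⁻¹ : GLI).val) = fn (g.val - h.val) := by
  rw [hg.inv_val, hh.inv_val, ← Matrix.sub_mul, ← Matrix.mul_sub, ← Matrix.transpose_sub,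
    B3a.fn_mul_J, B3a.fn_J_mul, B3a.fn_transpose]

theorem nrm_eq_fn (y : X) (A : Mat) :
    nrm y A = fn (((bst y)⁻¹ : GLI).val * A * (bst y).val) := by
  conv_lhs => rw [← act_bst y]
  exact nrm_act (bst_inG y) A

theorem nrm_inv_sub {g h : GLI} (hg : InG g) (hh : InG h) (y : X) :
    nrm y ((g⁻¹ : GLI).val - (h⁻¹ : GLI).val) = nrm y (g.val - h.val) := by
  have hb := bst_inG y
  rw [nrm_eq_fn, nrm_eq_fn]
  have h1 := fn_inv_sub ((hb.inv.mul hg).mul hb) ((hb.inv.mul hh).mul hb)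
  have e1 : ((bst y)⁻¹ : GLI).val * ((g⁻¹ : GLI).val - (h⁻¹ : GLI).val) * (bst y).val
      = (((bst y)⁻¹ * g * bst y)⁻¹ : GLI).val - (((bst y)⁻¹ * h * bst y)⁻¹ : GLI).val := by
    simp only [_root_.mul_inv_rev, inv_inv, Units.val_mul, Matrix.mul_sub, Matrix.sub_mul, Matrix.mul_assoc]
  have e2 : ((bst y)⁻¹ : GLI).val * (g.val - h.val) * (bst y).val
      = ((bst y)⁻¹ * g * bst y : GLI).val - ((bst y)⁻¹ * h * bst y : GLI).val := by
    simp only [Units.val_mul, Matrix.mul_sub, Matrix.sub_mul]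
  rw [e1, e2, h1]

theorem nrm_Yg_sub {g h : GLI} (hg : InG g) (hh : InG h) (y : X) :
    nrm y (Yg g - Yg h) ≤ nrm y (g.val - h.val) := by
  have e : Yg g - Yg h = (1 / 2 : ℝ) • ((g.val - h.val) - ((g⁻¹ : GLI).val - (h⁻¹ : GLI).val)) := by
    unfold Yg; rw [← smul_sub]; congr 1; abel
  rw [e, nrm_smul]
  have h1 := nrm_sub y (g.val - h.val) ((g⁻¹ : GLI).val - (h⁻¹ : GLI).val)
  rw [nrm_inv_sub hg hh] at h1
  rw [abs_of_pos (by norm_num : (0:ℝ) < 1 / 2)]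
  linarith

theorem Yg_one : Yg (1 : GLI) = 0 := by simp [Yg]

theorem nrm_Yg_le {g : GLI} (hg : InG g) (y : X) : nrm y (Yg g) ≤ sm y g := by
  have h := nrm_Yg_sub hg InG.one y
  rw [Yg_one, sub_zero] at h
  exact h

theorem Yg_commute {γ δ : GLI} (h : γ * δ = δ * γ) : Yg γ * Yg δ = Yg δ * Yg γ := by
  have c : Commute γ δ := h
  have c1 : Commute γ.val δ.val := c.units_val
  have c2 : Commute (γ⁻¹ : GLI).val δ.val := c.inv_left.units_val
  have c3 : Commute γ.val (δ⁻¹ : GLI).val := c.inv_right.units_val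
  have c4 : Commute (γ⁻¹ : GLI).val (δ⁻¹ : GLI).val := c.inv_inv.units_val
  have : Commute (Yg γ) (Yg δ) := by
    unfold Yg
    refine Commute.smul_left (Commute.smul_right ?_ _) _
    exact ((c1.sub_left c2).sub_right (c3.sub_left c4))
  exact this

/-- vectors seen from `y` -/
theorem bl_mulVec_lift_le (M : Mat) (y : X) :
    bl (M *ᵥ lift y) (M *ᵥ lift y) ≤ nrm y M ^ 2 ∧ |bl (M *ᵥ lift y) (lift y)| ≤ nrm y M := by
  have hb := bst_inG y
  have e3 : lift y = (bst y).val *ᵥ lift 0 := by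
    conv_lhs => rw [← act_bst y, lift_act hb]
  have e1 : M *ᵥ lift y
      = (bst y).val *ᵥ ((((bst y)⁻¹ : GLI).val * M * (bst y).val) *ᵥ lift 0) := by
    rw [e3, Matrix.mulVec_mulVec, Matrix.mulVec_mulVec]
    congr 1
    rw [← Matrix.mul_assoc, ← Matrix.mul_assoc, ← Units.val_mul, mul_inv_cancel, Units.val_one,
      Matrix.one_mul]
  rw [nrm_eq_fn]
  set N := ((bst y)⁻¹ : GLI).val * M * (bst y).val with hN
  constructor
  · rw [e1, bl_mulVec hb.1, bl_apply]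
    simp only [mulVec_lift_zero]
    rw [B3a.fn_sq]
    have h1 : ∀ i : I, N i o * N i o ≤ ∑ j, N i j ^ 2 := by
      intro i
      rw [← pow_two]
      exact Finset.single_le_sum (f := fun j => N i j ^ 2) (fun j _ => sq_nonneg _) (Finset.mem_univ o)
    rw [Fintype.sum_sum_type (f := fun i => ∑ j, N i j ^ 2)]
    have h2 : ∑ i : Fin 4, N (Sum.inl i) o * N (Sum.inl i) o ≤ ∑ i : Fin 4, ∑ j, N (Sum.inl i) j ^ 2 :=
      Finset.sum_le_sum (fun i _ => h1 _)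
    have h3 : 0 ≤ ∑ i : Unit, ∑ j, N (Sum.inr i) j ^ 2 :=
      Finset.sum_nonneg (fun i _ => Finset.sum_nonneg (fun j _ => sq_nonneg _))
    have h4 : 0 ≤ N o o * N o o := mul_self_nonneg _
    linarith
  · rw [e1]
    conv_lhs => rw [e3]
    rw [bl_mulVec hb.1, bl_apply]
    simp only [mulVec_lift_zero, lift_zero]
    have := abs_entry_le_fn N o o
    simpa using this

theorem hd_act_le {y : X} {γ : GLI} (hγ : InG γ) (hs : sm y γ ≤ 1 / 4) : hd y (act γ y) ≤ 1 := by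
  have hc : ch y (act γ y) ≤ Real.cosh 1 := by
    have e0 := ch_le_of_sm hγ y
    have e1 := Real.exp_one_gt_d9
    have e2 := Real.exp_pos (-1)
    rw [Real.cosh_eq]; linarith
  have h1 := cosh_hd y (act γ y)
  have h3 : |hd y (act γ y)| ≤ |(1:ℝ)| := by rw [← Real.cosh_le_cosh, h1]; exact hc
  rwa [abs_of_nonneg (hd_nonneg _ _), abs_one] at h3

/-- transport of small elements by the transition element -/
theorem transfer {Γ Γ' : Subgroup GLI} {φ : Γ ≃* Γ'} {P : Type} {q q' : P → GLI}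
    {Ξ Ξ' : Set (I → ℝ)} {η D ρ : ℝ} (hD : 24 ≤ D) (h : Mt Γ Γ' φ q q' Ξ Ξ' η D ρ) (σ : P) (y : X)
    (hy : hd y (act (q σ) 0) ≤ D / 6) (γ : Γ) (hs : sm y γ.1 ≤ 1 / 4) :
    nrm y (γ.1.val - ((Tr q q' σ)⁻¹ * (φ γ).1 * Tr q q' σ : GLI).val) ≤ Real.exp (D / 3) * ρ := by
  obtain ⟨τ, h1, h2⟩ := h.eqv γ σ
  have hq := h.mf.inG σ
  have hγ : InG γ.1 := h.disc.inG _ γ.2
  have hd1 := hd_act_le hγ hs
  have hgd : gd (q σ) (q τ) ≤ D / 2 := by
    rw [gd_eq hq (h.mf.inG τ), h1, act_mul hq]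
    have t1 := hd_triangle (act (q σ) 0) y (act γ.1 (act (q σ) 0))
    have t2 := hd_triangle y (act γ.1 y) (act γ.1 (act (q σ) 0))
    rw [hd_act hγ] at t2
    rw [hd_comm (act (q σ) 0) y] at t1
    linarith
  have hcl := h.mf.close σ τ hgd
  have hρ : 0 ≤ ρ := (fn_nonneg _).trans hcl
  have e : ((q σ)⁻¹ : GLI).val * (γ.1.val - ((Tr q q' σ)⁻¹ * (φ γ).1 * Tr q q' σ : GLI).val) * (q σ).val
      = ((q σ)⁻¹ * q τ).val - ((q' σ)⁻¹ * q' τ).val := by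
    rw [h1, h2]
    have g1 : (q σ)⁻¹ * (γ.1 * q σ) = (q σ)⁻¹ * γ.1 * q σ := by group
    have g2 : (q' σ)⁻¹ * ((φ γ).1 * q' σ)
        = (q σ)⁻¹ * ((Tr q q' σ)⁻¹ * (φ γ).1 * Tr q q' σ) * q σ := by
      unfold Tr; group
    rw [g1, g2]
    simp only [Units.val_mul, Matrix.mul_sub, Matrix.sub_mul]
  have hn := nrm_lip (act (q σ) 0) y
    (γ.1.val - ((Tr q q' σ)⁻¹ * (φ γ).1 * Tr q q' σ : GLI).val)
  rw [nrm_act hq, e] at hn
  refine hn.trans ?_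
  have h5 : Real.exp (2 * hd (act (q σ) 0) y) ≤ Real.exp (D / 3) := by
    rw [hd_comm]; exact Real.exp_le_exp.2 (by linarith)
  exact mul_le_mul h5 hcl (fn_nonneg _) (Real.exp_pos _).le

theorem sm_tr_le {g h : GLI} (y : X) {a r : ℝ} (h1 : sm y g ≤ a) (h2 : nrm y (g.val - h.val) ≤ r) :
    sm y h ≤ a + r := by
  have e : h.val - 1 = (g.val - 1) - (g.val - h.val) := by abel
  unfold sm at *
  rw [e]
  exact (nrm_sub _ _ _).trans (add_le_add h1 h2)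

/-- orthogonal to a null vector -/
theorem bl_nonneg_of_null {ξ w : I → ℝ} (h : NullF ξ) (hw : bl ξ w = 0) : 0 ≤ bl w w := by
  have hp := hb_pos h 0
  have hp' : bl ξ (lift 0) ≠ 0 := by unfold hb at hp; intro h0; rw [h0] at hp; simp at hp
  set c := bl w (lift 0) / bl ξ (lift 0) with hc
  have h1 : bl (w - c • ξ) (lift 0) = 0 := by
    rw [bl_sub_left, bl_smul_left, hc]; field_simp; ring
  have h2 := B1a.bl_nonneg_of_orth 0 (w - c • ξ) h1
  have h3 : bl (w - c • ξ) (w - c • ξ) = bl w w := by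
    rw [bl_sub_left, bl_sub_right, bl_sub_right, bl_smul_left, bl_smul_right, bl_smul_left,
      bl_smul_right, bl_comm w ξ, hw, h.1]; ring
  rwa [h3] at h2

theorem Yg_of_form {γ : GLI} {ξ w : I → ℝ} (h : NullF ξ) (hw : bl ξ w = 0)
    (hγ : γ.val = 1 + wedge ξ w + (1 / 2 : ℝ) • (wedge ξ w * wedge ξ w)) : Yg γ = wedge ξ w := by
  have h3 := Z3.cube h.1 hw
  set W := wedge ξ w with hW
  have h3' : W * (W * W) = 0 := by rw [← Matrix.mul_assoc]; exact h3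
  have e1 : γ.val * (1 - W + (1 / 2 : ℝ) • (W * W)) = 1 := by
    rw [hγ]
    simp only [Matrix.add_mul, Matrix.mul_add, Matrix.mul_sub, Matrix.one_mul, Matrix.mul_one,
      Matrix.smul_mul, Matrix.mul_smul, Matrix.mul_assoc, h3', smul_zero, Matrix.mul_zero]
    module
  have e2 : (γ⁻¹ : GLI).val = 1 - W + (1 / 2 : ℝ) • (W * W) := by
    calc (γ⁻¹ : GLI).val = (γ⁻¹ : GLI).val * (γ.val * (1 - W + (1 / 2 : ℝ) • (W * W))) := by
          rw [e1, Matrix.mul_one]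
      _ = 1 - W + (1 / 2 : ℝ) • (W * W) := by
          rw [← Matrix.mul_assoc, ← Units.val_mul, inv_mul_cancel, Units.val_one, Matrix.one_mul]
  unfold Yg
  rw [e2, hγ]
  module

/-- monotonicity of the size of a unipotent element in the direction of its fixed point -/
theorem sm_scale : ∃ η₀ : ℝ, 0 < η₀ ∧ ∀ (y z : X) (γ : GLI) (ξ w : I → ℝ) (c : ℝ), InG γ →
    sm y γ ≤ η₀ → sm z γ ≤ η₀ → NullF ξ → bl ξ w = 0 → Yg γ = wedge ξ w → 0 < c → c ≤ 1 →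
    hb ξ z ≤ c * hb ξ y → sm z γ ≤ c * sm y γ := by
  obtain ⟨η₀, h0, h⟩ := unip_of_wedge
  refine ⟨η₀, h0, ?_⟩
  intro y z γ ξ w c hγ hy hz hξ hw hY hc hc1 hb1
  have e1 := (h y γ ξ w hγ hy hξ hw hY).2.2
  have e2 := (h z γ ξ w hγ hz hξ hw hY).2.2
  have py := hb_pos hξ y
  have pz := hb_pos hξ z
  have a1 : |bl ξ (lift y)| = hb ξ y := by
    have : bl ξ (lift y) = - hb ξ y := by unfold hb; ring
    rw [this, abs_neg, abs_of_pos py]
  have a2 : |bl ξ (lift z)| = hb ξ z := by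
    have : bl ξ (lift z) = - hb ξ z := by unfold hb; ring
    rw [this, abs_neg, abs_of_pos pz]
  have hB := bl_nonneg_of_null hξ hw
  rw [a1] at e1
  rw [a2] at e2
  rw [e1, e2]
  have h1 : c * Real.sqrt ((2 * hb ξ y) ^ 2 * bl w w + ((2 * hb ξ y) ^ 2 * bl w w) ^ 2 / 16)
      = Real.sqrt (c ^ 2 * ((2 * hb ξ y) ^ 2 * bl w w + ((2 * hb ξ y) ^ 2 * bl w w) ^ 2 / 16)) := by
    rw [Real.sqrt_mul (sq_nonneg c), Real.sqrt_sq hc.le]
  rw [h1]
  apply Real.sqrt_le_sqrt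
  set u := (2 * hb ξ y) ^ 2 * bl w w with hu
  have hu0 : 0 ≤ u := by positivity
  have h2 : (2 * hb ξ z) ^ 2 * bl w w ≤ c ^ 2 * u := by
    rw [hu, ← mul_assoc]
    apply mul_le_mul_of_nonneg_right _ hB
    rw [← mul_pow]
    apply pow_le_pow_left₀ (by positivity)
    linarith
  have h3 : 0 ≤ (2 * hb ξ z) ^ 2 * bl w w := by positivity
  have h4 : ((2 * hb ξ z) ^ 2 * bl w w) ^ 2 ≤ (c ^ 2 * u) ^ 2 := pow_le_pow_left₀ h3 h2 2
  have h5 : (c ^ 2 * u) ^ 2 ≤ c ^ 2 * u ^ 2 := by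
    have : (c ^ 2 * u) ^ 2 = c ^ 2 * (c ^ 2 * u ^ 2) := by ring
    rw [this]
    apply mul_le_mul_of_nonneg_left _ (sq_nonneg c)
    have h6 : c ^ 2 ≤ 1 := pow_le_one₀ hc.le hc1
    nlinarith [sq_nonneg u]
  linarith

/-- lower bound for the translation length on the horosphere -/
theorem bl_lower : ∃ η₀ : ℝ, 0 < η₀ ∧ ∀ (y : X) (γ : GLI) (ξ w : I → ℝ) (η : ℝ), InG γ →
    0 < η → η ≤ 1 → sm y γ ≤ η₀ → NullF ξ → bl ξ w = 0 → Yg γ = wedge ξ w → hb ξ y = 1 → η ≤ sm y γ →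
    η ^ 2 / 8 ≤ bl w w := by
  obtain ⟨η₀, h0, h⟩ := unip_of_wedge
  refine ⟨η₀, h0, ?_⟩
  intro y γ ξ w η hγ hη hη1 hy hξ hw hY hb1 hs
  have e1 := (h y γ ξ w hγ hy hξ hw hY).2.2
  have a1 : |bl ξ (lift y)| = 1 := by
    have : bl ξ (lift y) = - hb ξ y := by unfold hb; ring
    rw [this, hb1]; norm_num
  rw [a1] at e1
  have hB := bl_nonneg_of_null hξ hw
  have h2 : η ^ 2 ≤ (2 * 1) ^ 2 * bl w w + ((2 * 1) ^ 2 * bl w w) ^ 2 / 16 := by
    rw [e1] at hs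
    have h3 := pow_le_pow_left₀ hη.le hs 2
    rwa [Real.sq_sqrt (by positivity)] at h3
  by_contra hcon
  push Not at hcon
  have h6 : η ^ 2 ≤ 1 := pow_le_one₀ hη.le hη1
  nlinarith [sq_nonneg (bl w w)]

theorem Yg_conj (T δ : GLI) : Yg (T⁻¹ * δ * T) = (T⁻¹ : GLI).val * Yg δ * T.val := by
  unfold Yg
  have e : (T⁻¹ * δ * T)⁻¹ = T⁻¹ * δ⁻¹ * T := by group
  rw [e]
  simp only [Units.val_mul, Matrix.mul_smul, Matrix.smul_mul, Matrix.mul_sub, Matrix.sub_mul]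

theorem val_mul_inv (T : GLI) : T.val * (T⁻¹ : GLI).val = 1 := by
  rw [← Units.val_mul, mul_inv_cancel, Units.val_one]

/-- the direction of the fixed point -/
theorem direction {γ δ T : GLI} (hγ : InG γ) (hδ : InG δ) (hT : InG T) {y : X}
    {ξ w ξ' v : I → ℝ} (hξ : NullF ξ) (hw : bl ξ w = 0) (hY : Yg γ = wedge ξ w)
    (hξ' : NullF ξ') (hv : bl ξ' v = 0) (hY' : Yg δ = wedge ξ' v)
    (hy : hb ξ y = 1) {η r : ℝ} (hη : 0 < η) (hr1 : r ≤ 1)
    (hr2 : r ≤ η ^ 2 / 48)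
    (hs : sm y γ ≤ 1) (hlow : η ^ 2 / 8 ≤ bl w w)
    (hclose : nrm y (γ.val - (T⁻¹ * δ * T : GLI).val) ≤ r)
    (hk : hb ξ' (act T y) ≤ 3) :
    - bl (T.val *ᵥ ξ) ξ' ≤ 1728 * r ^ 2 / η ^ 4 := by
  have hγ' : InG (T⁻¹ * δ * T) := (hT.inv.mul hδ).mul hT
  have hAB : nrm y (Yg γ - Yg (T⁻¹ * δ * T)) ≤ r := (nrm_Yg_sub hγ hγ' y).trans hclose
  have hA : nrm y (Yg γ) ≤ 1 := (nrm_Yg_le hγ y).trans hs
  have hB : nrm y (Yg (T⁻¹ * δ * T)) ≤ 2 :=
    (nrm_Yg_le hγ' y).trans ((sm_tr_le y hs hclose).trans (by linarith))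
  have hBe := Yg_conj T δ
  set A := Yg γ with hAd
  set B := Yg (T⁻¹ * δ * T) with hBd
  have h3 : nrm y (A * A - B * B) ≤ 3 * r := by
    have e : A * A - B * B = A * (A - B) + (A - B) * B := by
      rw [Matrix.mul_sub, Matrix.sub_mul]; abel
    rw [e]
    have n1 := nrm_mul y A (A - B)
    have n2 := nrm_mul y (A - B) B
    have n3 := nrm_add y (A * (A - B)) ((A - B) * B)
    have n4 := nrm_nonneg y (A - B)
    have n5 := nrm_nonneg y A
    have n6 := nrm_nonneg y B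
    nlinarith
  have hyb : bl ξ (lift y) = -1 := by unfold hb at hy; linarith
  have eA : (A * A) *ᵥ lift y = (bl w w) • ξ := by
    rw [hY, Z3.sq_mulVec hξ.1 hw, hyb]; congr 1; ring
  set κ := hb ξ' (act T y) with hκ
  set ζ := (T⁻¹ : GLI).val *ᵥ ξ' with hζ
  have hTζ : T.val *ᵥ ζ = ξ' := by
    rw [hζ, Matrix.mulVec_mulVec, val_mul_inv, Matrix.one_mulVec]
  have eB : (B * B) *ᵥ lift y = (κ * bl v v) • ζ := by
    have e1 : B * B = (T⁻¹ : GLI).val * (wedge ξ' v * wedge ξ' v) * T.val := by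
      rw [hBe, hY']
      calc (T⁻¹ : GLI).val * wedge ξ' v * T.val * ((T⁻¹ : GLI).val * wedge ξ' v * T.val)
          = (T⁻¹ : GLI).val * wedge ξ' v * (T.val * (T⁻¹ : GLI).val) * wedge ξ' v * T.val := by
            simp only [Matrix.mul_assoc]
        _ = _ := by rw [val_mul_inv, Matrix.mul_one]; simp only [Matrix.mul_assoc]
    rw [e1, ← Matrix.mulVec_mulVec, ← Matrix.mulVec_mulVec, ← lift_act hT,
      Z3.sq_mulVec hξ'.1 hv, Matrix.mulVec_smul, ← hζ]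
    congr 1
    rw [hκ]; unfold hb; ring
  have hd : (A * A - B * B) *ᵥ lift y = (bl w w) • ξ - (κ * bl v v) • ζ := by
    rw [Matrix.sub_mulVec, eA, eB]
  have hv0 := bl_nonneg_of_null hξ' hv
  have hκ0 : 0 < κ := hb_pos hξ' _
  obtain ⟨k1, k2⟩ := bl_mulVec_lift_le (A * A - B * B) y
  rw [hd] at k1 k2
  set α := bl w w with hα
  set β := κ * bl v v with hβ
  have hζζ : bl ζ ζ = 0 := by
    rw [← bl_mulVec hT.1, hTζ, hξ'.1]
  have hζy : bl ζ (lift y) = - κ := by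
    rw [← bl_mulVec hT.1, hTζ, ← lift_act hT, hκ]; unfold hb; ring
  have k3 : bl (α • ξ - β • ζ) (α • ξ - β • ζ) = - (2 * α * β * bl ξ ζ) := by
    rw [bl_sub_left, bl_sub_right, bl_sub_right, bl_smul_left, bl_smul_right, bl_smul_left,
      bl_smul_right, bl_smul_left, bl_smul_right, bl_smul_left, bl_smul_right, hξ.1, hζζ,
      bl_comm ζ ξ]
    ring
  have k4 : bl (α • ξ - β • ζ) (lift y) = - α + β * κ := by
    rw [bl_sub_left, bl_smul_left, bl_smul_left, hyb, hζy]; ring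
  rw [k3] at k1
  rw [k4] at k2
  have k5 : nrm y (A * A - B * B) ^ 2 ≤ (3 * r) ^ 2 :=
    pow_le_pow_left₀ (nrm_nonneg _ _) h3 2
  have k6 := (abs_le.1 (k2.trans h3)).1
  have hβ0 : 0 ≤ β := by positivity
  have hβl : η ^ 2 / 48 ≤ β := by nlinarith
  have hgoal : bl (T.val *ᵥ ξ) ξ' = bl ξ ζ := by
    conv_lhs => rw [← hTζ]
    rw [bl_mulVec hT.1]
  rw [hgoal]
  have hη4 : 0 < η ^ 4 := by positivity
  rw [le_div_iff₀ hη4]
  rcases le_or_gt (- bl ξ ζ) 0 with hneg | hpos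
  · have : - bl ξ ζ * η ^ 4 ≤ 0 := mul_nonpos_of_nonpos_of_nonneg hneg hη4.le
    have : 0 ≤ 1728 * r ^ 2 := by positivity
    linarith
  · have m1 : (η ^ 2 / 8) * (η ^ 2 / 48) ≤ α * β :=
      mul_le_mul hlow hβl (by positivity) (le_trans (by positivity) hlow)
    have m2 : (η ^ 2 / 8) * (η ^ 2 / 48) * (- bl ξ ζ) ≤ α * β * (- bl ξ ζ) :=
      mul_le_mul_of_nonneg_right m1 hpos.le
    nlinarith

theorem bl_pos_of_wedge {ξ w : I → ℝ} (h : NullF ξ) (hw : bl ξ w = 0) (hne : wedge ξ w ≠ 0) :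
    0 < bl w w := by
  refine lt_of_le_of_ne (bl_nonneg_of_null h hw) (fun h0 => hne ?_)
  have e := Z0.null_prop h.1 h.2.ne' h0.symm (by rw [bl_comm]; exact hw)
  rw [e]
  unfold wedge
  rw [Matrix.mulVec_smul, Matrix.smul_vecMulVec, Matrix.vecMulVec_smul, sub_self]

theorem hb_smul (c : ℝ) (ξ : I → ℝ) (y : X) : hb (c • ξ) y = c * hb ξ y := by
  unfold hb; rw [bl_smul_left]; ring

theorem wedge_smul_inv {c : ℝ} (hc : 0 < c) (ξ w : I → ℝ) : wedge (c • ξ) (c⁻¹ • w) = wedge ξ w := by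
  unfold wedge
  rw [Matrix.mulVec_smul, Matrix.mulVec_smul, Matrix.smul_vecMulVec, Matrix.vecMulVec_smul,
    Matrix.smul_vecMulVec, Matrix.vecMulVec_smul, smul_smul, smul_smul, inv_mul_cancel₀ hc.ne',
    mul_inv_cancel₀ hc.ne', one_smul, one_smul]

end R26

open R26 in
theorem match_at_of (hab3 : Z6.Ab3) : ∃ η₀ : ℝ, 0 < η₀ ∧ ∀ η : ℝ, 0 < η → η ≤ η₀ → ∀ D : ℝ, 24 ≤ D → ∀ ε : ℝ, 0 < ε →
    ∃ ρ₀ : ℝ, 0 < ρ₀ ∧ ∀ {Γ Γ' : Subgroup GLI} {φ : Γ ≃* Γ'} {P : Type} {q q' : P → GLI}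
      {Ξ Ξ' : Set (I → ℝ)} {ρ : ℝ}, ρ ≤ ρ₀ → Mt Γ Γ' φ q q' Ξ Ξ' η D ρ →
      ∀ ξ ∈ Ξ, ∀ y, hb ξ y = 1 → ∀ σ, hd y (act (q σ) 0) ≤ D / 6 → ∃ ξ' ∈ Ξ',
        |Real.log (hb ξ' (act (Tr q q' σ) y))| ≤ ε ∧ - bl ((Tr q q' σ).val *ᵥ ξ) ξ' ≤ ε := by
  obtain ⟨a1, ha1, hz⟩ := zassenhaus
  obtain ⟨a2, ha2, hi⟩ := R25.indep_of_iso_of hab3
  obtain ⟨a3, ha3, hsc⟩ := sm_scale
  obtain ⟨a4, ha4, hlo⟩ := bl_lower
  refine ⟨min (min (a1 / 2) (a2 / 2)) (min (a3 / 20) (min a4 (1 / 8))), by positivity, ?_⟩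
  intro η hη hη0 D hD ε hε
  have b1 : η ≤ a1 / 2 := hη0.trans ((min_le_left _ _).trans (min_le_left _ _))
  have b2 : η ≤ a2 / 2 := hη0.trans ((min_le_left _ _).trans (min_le_right _ _))
  have b3 : η ≤ a3 / 20 := hη0.trans ((min_le_right _ _).trans (min_le_left _ _))
  have b4 : η ≤ a4 := hη0.trans ((min_le_right _ _).trans ((min_le_right _ _).trans (min_le_left _ _)))
  have b5 : η ≤ 1 / 8 :=
    hη0.trans ((min_le_right _ _).trans ((min_le_right _ _).trans (min_le_right _ _)))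
  obtain ⟨t, ht, ht1, hte⟩ : ∃ t : ℝ, 0 < t ∧ t ≤ 1 / 2 ∧ t ≤ ε := by
    refine ⟨min ε (1 / 2), by positivity, min_le_right _ _, min_le_left _ _⟩
  have het : Real.exp (-t) < 1 := by
    rw [Real.exp_lt_one_iff]; linarith
  have het0 : 0 < Real.exp (-t) := Real.exp_pos _
  obtain ⟨r, hr, r1, r2, r3, r4⟩ : ∃ r : ℝ, 0 < r ∧ r ≤ η * (1 - Real.exp (-t)) / 2 ∧ r ≤ η ^ 2 / 48 ∧
      r ≤ ε * η ^ 4 / 1728 ∧ r ≤ 1 := by
    refine ⟨min (min (η * (1 - Real.exp (-t)) / 2) (η ^ 2 / 48)) (min (ε * η ^ 4 / 1728) 1), ?_,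
      (min_le_left _ _).trans (min_le_left _ _), (min_le_left _ _).trans (min_le_right _ _),
      (min_le_right _ _).trans (min_le_left _ _), (min_le_right _ _).trans (min_le_right _ _)⟩
    have : 0 < 1 - Real.exp (-t) := by linarith
    positivity
  have hrη : r ≤ η := by nlinarith
  refine ⟨Real.exp (-(D / 3)) * r, by positivity, ?_⟩
  intro Γ Γ' φ P q q' Ξ Ξ' ρ hρ h ξ hξ y hy σ hσ
  have hρr : Real.exp (D / 3) * ρ ≤ r := by
    have h1 := mul_le_mul_of_nonneg_left hρ (Real.exp_pos (D / 3)).le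
    rwa [← mul_assoc, ← Real.exp_add, add_neg_cancel, Real.exp_zero, one_mul] at h1
  have hT : InG (Tr q q' σ) := inG_Tr h.mf σ
  have hξn := h.horo.horo.null ξ hξ
  obtain ⟨γ, hγΓ, hγli, hγf, hγs, hγl⟩ := h.horo.elts ξ hξ
  have hsm : ∀ i, sm y (γ i) ≤ η := hγs y hy.le
  have htr := fun γ0 hγ0 => (transfer hD h σ y hσ γ0 hγ0).trans hρr
  have hswap : Tr q' q σ = (Tr q q' σ)⁻¹ := Tr_swap q q' σ
  have hTq : act (Tr q q' σ) (act (q σ) 0) = act (q' σ) 0 := by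
    rw [← act_mul (h.mf.inG σ)]; congr 1; unfold Tr; group
  have hσ' : hd (act (Tr q q' σ) y) (act (q' σ) 0) ≤ D / 6 := by
    rw [← hTq, hd_act hT]; exact hσ
  have htr' := fun γ0 hγ0 => (transfer hD h.symm σ (act (Tr q q' σ) y) hσ' γ0 hγ0).trans hρr
  rw [hswap, inv_inv] at htr'
  set T := Tr q q' σ with hTd
  set y1 := act T y with hy1
  set g : Fin 3 → Γ := fun i => ⟨γ i, hγΓ i⟩ with hg
  have tr : ∀ i, nrm y ((γ i).val - (T⁻¹ * (φ (g i)).1 * T : GLI).val) ≤ r := fun i =>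
    htr (g i) (by have := hsm i; show sm y (γ i) ≤ 1 / 4; linarith)
  have hδG : ∀ i, InG (φ (g i)).1 := fun i => h.disc'.inG _ (φ (g i)).2
  have s1 : ∀ i, sm y1 (φ (g i)).1 ≤ η + r := by
    intro i
    have e1 := sm_tr_le y (hsm i) (tr i)
    have e := sm_conj hT y (γ := T⁻¹ * (φ (g i)).1 * T)
    have e' : T * (T⁻¹ * (φ (g i)).1 * T) * T⁻¹ = (φ (g i)).1 := by group
    rw [e'] at e
    rw [hy1, e]; exact e1
  have hli : LinearIndependent ℝ (fun i => Yg (φ (g i)).1) :=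
    hi Γ Γ' h.disc h.disc' φ ξ hξn g hγf hγli y1 (fun i => (s1 i).trans (by linarith))
  have hcomm : ∀ i j, (φ (g i)).1 * (φ (g j)).1 = (φ (g j)).1 * (φ (g i)).1 := fun i j =>
    hz Γ' h.disc' y1 _ (φ (g i)).2 _ (φ (g j)).2 ((s1 i).trans (by linarith))
      ((s1 j).trans (by linarith))
  obtain ⟨ξ₀, hξ₀, hab⟩ := hab3 (fun i => Yg (φ (g i)).1)
    (fun i => isSo_Yg (hδG i)) (fun i j => Yg_commute (hcomm i j)) hli
  have hw' : ∀ i, ∃ w, bl ξ₀ w = 0 ∧ Yg (φ (g i)).1 = wedge ξ₀ w := fun i =>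
    hab _ (isSo_Yg (hδG i)) (fun j => Yg_commute (hcomm i j))
  choose w' hw'0 hw'1 using hw'
  -- move towards `ξ₀`
  set z := mv ξ₀ t y1 with hzd
  have hzb : hb ξ₀ z = Real.exp (-t) * hb ξ₀ y1 := hb_mv hξ₀ t y1
  have s2 : ∀ i, sm z (φ (g i)).1 < η := by
    intro i
    have l1 := sm_lip y1 z (φ (g i)).1
    have l2 : hd y1 z = |t| := hd_mv hξ₀ t y1
    rw [l2, abs_of_pos ht] at l1
    have l3 : Real.exp (2 * t) ≤ 3 := by
      have e1 : Real.exp (2 * t) ≤ Real.exp 1 := Real.exp_le_exp.2 (by linarith)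
      have e2 := Real.exp_one_lt_d9
      linarith
    have l5 : 0 ≤ sm y1 (φ (g i)).1 := nrm_nonneg _ _
    have l4 : sm z (φ (g i)).1 ≤ a3 := by
      have := mul_le_mul l3 (s1 i) l5 (by norm_num : (0:ℝ) ≤ 3)
      linarith
    have l6 := hsc y1 z _ ξ₀ (w' i) (Real.exp (-t)) (hδG i) ((s1 i).trans (by linarith)) l4 hξ₀
      (hw'0 i) (hw'1 i) het0 het.le hzb.le
    have l7 : Real.exp (-t) * sm y1 (φ (g i)).1 ≤ Real.exp (-t) * (η + r) :=
      mul_le_mul_of_nonneg_left (s1 i) het0.le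
    have l8 : Real.exp (-t) * r ≤ r := by nlinarith
    have l9 : 0 < η * (1 - Real.exp (-t)) := by
      have : 0 < 1 - Real.exp (-t) := by linarith
      positivity
    nlinarith
  have hzD : z ∈ Deep Γ' η := ⟨fun i => (φ (g i)).1, fun i => ⟨(φ (g i)).2, s2 i⟩, hli⟩
  obtain ⟨ξ', hξ', hbz⟩ := (h.horo'.deep z).1 hzD
  refine ⟨ξ', hξ', ?_⟩
  have hξ'n := h.horo'.horo.null ξ' hξ'
  obtain ⟨γ', hγ'Γ, hγ'li, hγ'f, hγ's, -⟩ := h.horo'.elts ξ' hξ'
  have hγ'f0 := hγ'f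
  have s3 : ∀ i, sm z (γ' i) ≤ η := hγ's z hbz.le
  choose v hv0 hv1 using hγ'f
  have hγ'Y : ∀ i, Yg (γ' i) = wedge ξ' (v i) := fun i => Yg_of_form hξ'n (hv0 i) (hv1 i)
  have pos1 : 0 < bl (w' 0) (w' 0) :=
    bl_pos_of_wedge hξ₀ (hw'0 0) (by rw [← hw'1 0]; exact hli.ne_zero 0)
  have pos2 : 0 < bl (v 0) (v 0) :=
    bl_pos_of_wedge hξ'n (hv0 0) (by rw [← hγ'Y 0]; exact hγ'li.ne_zero 0)
  have hcm : wedge ξ₀ (w' 0) * wedge ξ' (v 0) = wedge ξ' (v 0) * wedge ξ₀ (w' 0) := by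
    rw [← hw'1 0, ← hγ'Y 0]
    exact Yg_commute (hz Γ' h.disc' z _ (φ (g 0)).2 _ (hγ'Γ 0) ((s2 0).le.trans (by linarith))
      ((s3 0).trans (by linarith)))
  obtain ⟨c, hc, hcξ⟩ := wedge_commute hξ₀ (hw'0 0) pos1 hξ'n (hv0 0) pos2 hcm
  have hpos := hb_pos hξ'n y1
  have hzy : hb ξ' z = Real.exp (-t) * hb ξ' y1 := by
    rw [hcξ, hb_smul, hb_smul, hzb]; ring
  have hup : hb ξ' y1 < Real.exp t := by
    have e1 : Real.exp t * Real.exp (-t) = 1 := by rw [← Real.exp_add]; simp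
    have e2 : Real.exp t * hb ξ' z = hb ξ' y1 := by rw [hzy, ← mul_assoc, e1, one_mul]
    rw [← e2]
    have := mul_lt_mul_of_pos_left hbz (Real.exp_pos t)
    linarith
  have hlow : Real.exp (-t) ≤ hb ξ' y1 := by
    by_contra hcon
    push Not at hcon
    have hb1 : hb ξ' y1 ≤ 1 := (hcon.trans het).le
    set z' := mv ξ' (Real.log (hb ξ' y1)) y1 with hz'd
    have hz'b : hb ξ' z' = 1 := by
      rw [hz'd, hb_mv hξ'n, Real.exp_neg, Real.exp_log hpos, inv_mul_cancel₀ hpos.ne']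
    have u1 : ∀ i, sm y1 (γ' i) ≤ Real.exp (-t) * η := by
      intro i
      have e1 := hsc z' y1 (γ' i) ξ' (v i) (Real.exp (-t)) (h.disc'.inG _ (hγ'Γ i))
        ((hγ's z' hz'b.le i).trans (by linarith)) ((hγ's y1 hb1 i).trans (by linarith)) hξ'n (hv0 i)
        (hγ'Y i) het0 het.le (by rw [hz'b, mul_one]; exact hcon.le)
      exact e1.trans (mul_le_mul_of_nonneg_left (hγ's z' hz'b.le i) het0.le)
    set g' : Fin 3 → Γ' := fun i => ⟨γ' i, hγ'Γ i⟩ with hg'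
    have u2 : ∀ i, sm y (φ.symm (g' i)).1 < η := by
      intro i
      have e0 : sm y1 (γ' i) ≤ 1 / 4 := (hγ's y1 hb1 i).trans (by linarith)
      have e1 := htr' (g' i) e0
      have e2 := sm_tr_le y1 (u1 i) e1
      rw [hy1, sm_conj hT] at e2
      have l9 : 0 < η * (1 - Real.exp (-t)) := by
        have : 0 < 1 - Real.exp (-t) := by linarith
        positivity
      nlinarith
    have u3 : LinearIndependent ℝ (fun i => Yg (φ.symm (g' i)).1) :=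
      hi Γ' Γ h.disc' h.disc φ.symm ξ' hξ'n g' hγ'f0 hγ'li y (fun i => (u2 i).le.trans (by linarith))
    have u4 : y ∈ Deep Γ η :=
      ⟨fun i => (φ.symm (g' i)).1, fun i => ⟨(φ.symm (g' i)).2, u2 i⟩, u3⟩
    obtain ⟨ζ, hζ, hbζ⟩ := (h.horo.deep y).1 u4
    have := h.horo.horo.disj ζ hζ ξ hξ y hbζ.le hy.le
    rw [this, hy] at hbζ
    exact lt_irrefl _ hbζ
  constructor
  · rw [abs_le]
    constructor
    · have := (Real.le_log_iff_exp_le hpos).2 hlow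
      linarith
    · have := (Real.log_le_iff_le_exp hpos).2 hup.le
      linarith
  · obtain ⟨i0, hi0⟩ := hγl y hy.ge
    obtain ⟨w, hw0, hw1⟩ := hγf i0
    have hY := Yg_of_form hξn hw0 hw1
    have hlow2 := hlo y (γ i0) ξ w η (h.disc.inG _ (hγΓ i0)) hη (by linarith)
      ((hsm i0).trans (by linarith)) hξn hw0 hY hy hi0
    have hY' : Yg (φ (g i0)).1 = wedge ξ' (c⁻¹ • w' i0) := by
      rw [hw'1 i0, hcξ, wedge_smul_inv hc]
    have hv' : bl ξ' (c⁻¹ • w' i0) = 0 := by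
      rw [hcξ, bl_smul_left, bl_smul_right, hw'0 i0]; simp
    have hk : hb ξ' (act T y) ≤ 3 := by
      have e1 : Real.exp t ≤ Real.exp 1 := Real.exp_le_exp.2 (by linarith)
      have e2 := Real.exp_one_lt_d9
      rw [← hy1]; linarith
    have := direction (h.disc.inG _ (hγΓ i0)) (hδG i0) hT hξn hw0 hY hξ'n hv' hY' hy hη r4 r2
      ((hsm i0).trans (by linarith)) hlow2 (tr i0) hk
    refine this.trans ?_
    have hη4 : 0 < η ^ 4 := by positivity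
    rw [div_le_iff₀ hη4]
    have e5 : r ^ 2 ≤ r := by
      rw [pow_two]; exact mul_le_of_le_one_right hr.le r4
    have e6 : 1728 * r ≤ ε * η ^ 4 := by
      have := mul_le_mul_of_nonneg_left r3 (by norm_num : (0:ℝ) ≤ 1728)
      have e7 : 1728 * (ε * η ^ 4 / 1728) = ε * η ^ 4 := by ring
      rwa [e7] at this
    exact (mul_le_mul_of_nonneg_left e5 (by norm_num : (0:ℝ) ≤ 1728)).trans e6

end Pool.Agent.helper7.WB
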